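import Mathlib
import Pool.Agent.Y464.AG.Cuntz
import Pool.Agent.H724R3.N.KAlg

set_option autoImplicit false

/-!
# Homological dimensions of Banach algebras containing an amenable group

Let `A` be a Banach algebra with a representation `π` on a nonzero Hilbert space `K`, and let `1 + a(g)`, `a(g) ∈ A`, be
a bounded representation of an amenable group `G` such that the operators `1 + π(a(g))` are unitary and have no nonzero
finite-dimensional invariant subspace of `K` in common. Then the global dimension and the bidimension of `A` are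
infinite.

In particular this holds for every closed algebra of operators on an infinite-dimensional Hilbert space `H` which
contains the operators of finite rank (`K(H)`, `B(H)`), for every unital C*-algebra containing an amenable group of
unitaries which generates an algebra without finite-dimensional representations, and so for every unital C*-algebra
containing unitaries `u v = z v u`, `z` not a root of unity, or infinitely many commuting pairs of unitaries
`u_k v_k = z_k v_k u_k`, `z_k ≠ 1`, or isometries `s_1, …, s_n`, `n ≥ 2`, with the Cuntz relations.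
-/

namespace Pool.Agent.Results.MP_216d05_an.AmenableUnitaries

open Pool.Agent.Helper832.GS Pool.Agent.H724R3.N

open Classical in
/-- The group `G` is amenable: Følner's condition. -/
def Amenable (G : Type) [Group G] : Prop :=
  ∀ (S : Finset G) (ε : ℝ), 0 < ε → ∃ T : Finset G, T.Nonempty ∧
    ∀ s ∈ S, (((T.filter (fun t => s * t ∉ T)).card : ℕ) : ℝ) ≤ ε * (T.card : ℝ)

/-- The global dimension and the bidimension of `A` are infinite. -/
def InfiniteDims (A : Type) [NonUnitalNormedRing A] [NormedSpace ℂ A] [IsScalarTower ℂ A A]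
    [SMulCommClass ℂ A A] [CompleteSpace A] : Prop := dg A = ⊤ ∧ db A = ⊤

/-- The operator `π(x)` applied to the vector `v`. -/
noncomputable def act {A K : Type} [NonUnitalNormedRing A] [NormedSpace ℂ A] [NormedAddCommGroup K] [InnerProductSpace ℂ K]
    (π : A →L[ℂ] (K →L[ℂ] K)) (x : A) (v : K) : K := π x v

/-- `π` is a bounded representation: `π(xy) = π(x)π(y)`. -/
def IsRep {A K : Type} [NonUnitalNormedRing A] [NormedSpace ℂ A] [NormedAddCommGroup K] [InnerProductSpace ℂ K]
    (π : A →L[ℂ] (K →L[ℂ] K)) : Prop := ∀ x y v, act π (x * y) v = act π x (act π y v)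

/-- `‖π(x)‖ = ‖x‖`. -/
def IsIsometric {A K : Type} [NonUnitalNormedRing A] [NormedSpace ℂ A] [NormedAddCommGroup K] [InnerProductSpace ℂ K]
    (π : A →L[ℂ] (K →L[ℂ] K)) : Prop := ∀ x, ‖π x‖ = ‖x‖

/-- Every operator of finite rank is some `π(x)`. -/
def HasFiniteRank {A K : Type} [NonUnitalNormedRing A] [NormedSpace ℂ A] [NormedAddCommGroup K]
    [InnerProductSpace ℂ K] (π : A →L[ℂ] (K →L[ℂ] K)) : Prop :=
  ∀ T : K →L[ℂ] K, FiniteDimensional ℂ (LinearMap.range T.toLinearMap) → ∃ x, ∀ v, act π x v = T v

/-- The operators `π(x)` are exactly the compact operators. -/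
def IsAllCompact {A K : Type} [NonUnitalNormedRing A] [NormedSpace ℂ A] [NormedAddCommGroup K]
    [InnerProductSpace ℂ K] (π : A →L[ℂ] (K →L[ℂ] K)) : Prop :=
  ∀ T : K →L[ℂ] K, IsCompactOperator T ↔ ∃ x, ∀ v, act π x v = T v

/-- The elements `1 + a(g)` form a bounded representation of the group `G`. -/
def IsGroupOfUnits {A : Type} [NonUnitalNormedRing A] {G : Type} [Group G] (a : G → A) : Prop :=
  a 1 = 0 ∧ (∀ g h, a (g * h) = a g + a h + a g * a h) ∧ ∃ C : ℝ, ∀ g, ‖a g‖ ≤ C

/-- `u v = z v u`. -/
def Twist {A : Type} [CStarAlgebra A] (z : ℂ) (u v : unitary A) : Prop := (u : A) * v = z • ((v : A) * u)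

/-- The algebra `B` has no unital finite-dimensional representation. -/
def NoFiniteReps (B : Type) [Ring B] [Algebra ℂ B] : Prop :=
  ∀ d : ℕ, 0 < d → IsEmpty (B →ₐ[ℂ] Matrix (Fin d) (Fin d) ℂ)

/-- The linear span of the group of the unitaries `u(g)` has no unital finite-dimensional representation. -/
def SpanWithoutReps {A : Type} [CStarAlgebra A] {G : Type} [Group G] (u : G →* unitary A) : Prop :=
  NoFiniteReps (Algebra.adjoin ℂ (Set.range fun g => ((u g : unitary A) : A)))

/-- (1) The criterion: a bounded representation `π` on a nonzero Hilbert space and an amenable group of elements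
`1 + a(g)` acting unitarily and without nonzero finite-dimensional invariant subspaces. -/
def Criterion : Prop :=
  ∀ (A : Type) [NonUnitalNormedRing A] [NormedSpace ℂ A] [IsScalarTower ℂ A A] [SMulCommClass ℂ A A]
    [CompleteSpace A] (K : Type) [NormedAddCommGroup K] [InnerProductSpace ℂ K] [CompleteSpace K] [Nontrivial K]
    (π : A →L[ℂ] (K →L[ℂ] K)) (G : Type) [Group G] (a : G → A), IsRep π → Amenable G → IsGroupOfUnits a →
    (∀ g v w, inner ℂ (act π (a g) v) w = inner ℂ v (act π (a g⁻¹) w)) →
    (∀ W : Submodule ℂ K, FiniteDimensional ℂ W → (∀ g, ∀ x ∈ W, act π (a g) x ∈ W) → W = ⊥) → InfiniteDims A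

/-- (2) Unital C*-algebras containing an amenable group of unitaries such that the algebra spanned by the group has no
unital finite-dimensional representation. -/
def UnitaryGroups : Prop :=
  ∀ (A : Type) [CStarAlgebra A] [Nontrivial A] (G : Type) [Group G] (u : G →* unitary A), Amenable G →
    SpanWithoutReps u → InfiniteDims A

/-- (3) Unital C*-algebras containing unitaries `u v = z v u`, where `z` is not a root of unity. -/
def OnePair : Prop :=
  ∀ (A : Type) [CStarAlgebra A] [Nontrivial A] (u v : unitary A) (z : ℂ), (∀ n : ℕ, 0 < n → z ^ n ≠ 1) →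
    Twist z u v → InfiniteDims A

/-- (4) Unital C*-algebras containing infinitely many commuting pairs of unitaries `u_k v_k = z_k v_k u_k`,
`z_k ≠ 1`. -/
def CommutingPairs : Prop :=
  ∀ (A : Type) [CStarAlgebra A] [Nontrivial A] (u v : ℕ → unitary A) (z : ℕ → ℂ), (∀ k, z k ≠ 1) →
    (∀ k, Twist (z k) (u k) (v k)) →
    (∀ j k, j ≠ k → Twist 1 (u j) (u k) ∧ Twist 1 (u j) (v k) ∧ Twist 1 (v j) (v k)) → InfiniteDims A

/-- (5) Unital C*-algebras containing elements `s_i`, `i` modulo `n ≥ 2`, with the Cuntz relations. -/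
def CuntzRelations : Prop :=
  ∀ (A : Type) [CStarAlgebra A] [Nontrivial A] (n : ℕ) [NeZero n] (s : ZMod n → A), 2 ≤ n →
    (∀ i j, star (s i) * s j = if i = j then 1 else 0) → ∑ i, s i * star (s i) = 1 → InfiniteDims A

/-- (6) Closed algebras of operators on an infinite-dimensional Hilbert space which contain the operators of finite
rank. -/
def OperatorAlgebras : Prop :=
  ∀ (H : Type) [NormedAddCommGroup H] [InnerProductSpace ℂ H] [CompleteSpace H], ¬ FiniteDimensional ℂ H →
    ∀ (A : Type) [NonUnitalNormedRing A] [NormedSpace ℂ A] [IsScalarTower ℂ A A] [SMulCommClass ℂ A A]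
      [CompleteSpace A] (κ : A →L[ℂ] (H →L[ℂ] H)), IsRep κ → IsIsometric κ → HasFiniteRank κ → InfiniteDims A

/-- (7) The algebra `K(H)` of all compact operators (a Banach algebra `A` with an isometric homomorphism onto it). -/
def AllCompact : Prop :=
  ∀ (H : Type) [NormedAddCommGroup H] [InnerProductSpace ℂ H] [CompleteSpace H], ¬ FiniteDimensional ℂ H →
    ∀ (A : Type) [NonUnitalNormedRing A] [NormedSpace ℂ A] [IsScalarTower ℂ A A] [SMulCommClass ℂ A A]
      [CompleteSpace A] (κ : A →L[ℂ] (H →L[ℂ] H)), IsRep κ → IsIsometric κ → IsAllCompact κ → InfiniteDims A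

/-- (8) The algebra `B(H)` of all bounded operators. -/
def AllBounded : Prop :=
  ∀ (H : Type) [NormedAddCommGroup H] [InnerProductSpace ℂ H] [CompleteSpace H], ¬ FiniteDimensional ℂ H →
    InfiniteDims (H →L[ℂ] H)

/-- Parts (1)-(8). -/
theorem result : Criterion ∧ UnitaryGroups ∧ OnePair ∧ CommutingPairs ∧ CuntzRelations ∧ OperatorAlgebras ∧
    AllCompact ∧ AllBounded := by
  refine ⟨?_, ?_, ?_, ?_, ?_, ?_, ?_, ?_⟩
  · intro A _ _ _ _ _ K _ _ _ _ π G _ a h1 h2 h3 h6 h7
    refine Pool.Agent.Y464.AG.criterion A K π (fun x y => ContinuousLinearMap.ext fun v => h1 x y v) G h2 a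
      h3.1 h3.2.1 h3.2.2 (fun g => ?_) h7
    have h := (ContinuousLinearMap.eq_adjoint_iff (π (a g⁻¹)) (π (a g))).2 fun v w => ?_
    · rw [h, ContinuousLinearMap.star_eq_adjoint]
    · have h8 := h6 g⁻¹ v w
      rw [inv_inv] at h8
      exact h8
  · intro A _ _ G _ u h1 h2
    exact Pool.Agent.Y464.AG.cstar A G h1 u h2
  · intro A _ _ u v z h1 h2
    exact Pool.Agent.Y464.AG.rotation A u v z h1 h2
  · intro A _ _ u v z h1 h2 h3
    refine Pool.Agent.Y464.AG.pairs A u v z h1 h2 fun j k hjk => ?_
    have h4 : ∀ x y : unitary A, Twist 1 x y → x * y = y * x := fun x y hxy => by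
      refine Subtype.ext ?_
      have h5 : (x : A) * y = (1 : ℂ) • ((y : A) * x) := hxy
      rw [one_smul] at h5
      exact h5
    exact ⟨h4 _ _ (h3 j k hjk).1, h4 _ _ (h3 j k hjk).2.1, h4 _ _ (h3 j k hjk).2.2⟩
  · intro A _ _ n _ s h1 h2 h3
    exact Pool.Agent.Y464.AG.cuntz h1 s h2 h3
  · intro H _ _ _ hH A _ _ _ _ _ κ h1 h2 h3
    refine Pool.Agent.Y464.AG.oper H hH A κ h2 (fun x y => ContinuousLinearMap.ext fun v => h1 x y v) fun T hT => ?_
    obtain ⟨x, hx⟩ := h3 T hT
    exact ⟨x, ContinuousLinearMap.ext hx⟩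
  · intro H _ _ _ hH A _ _ _ _ _ κ h1 h2 h3
    refine Pool.Agent.Y464.AG.oper H hH A κ h2 (fun x y => ContinuousLinearMap.ext fun v => h1 x y v) fun T hT => ?_
    have hc : IsCompactOperator T := by
      have : ProperSpace (LinearMap.range T.toLinearMap) :=
        FiniteDimensional.proper ℂ (LinearMap.range T.toLinearMap)
      let T' : H →L[ℂ] (LinearMap.range T.toLinearMap) := T.codRestrict _ fun x => ⟨x, rfl⟩
      have h4 : IsCompactOperator T' := isCompactOperator_of_locallyCompactSpace_dom T'
      exact h4.clm_comp (LinearMap.range T.toLinearMap).subtypeL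
    obtain ⟨x, hx⟩ := (h3 T).1 hc
    exact ⟨x, ContinuousLinearMap.ext hx⟩
  · intro H _ _ _ hH
    refine Pool.Agent.Y464.AG.dg_of_db ?_
    exact db_BH (mainStatement taskFinal) taskPermF taskPermR taskOper H hH

end Pool.Agent.Results.MP_216d05_an.AmenableUnitaries
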